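import Pool.Agent.H519_DM.D1

set_option autoImplicit false

/-!
# Densely minimal abelian groups are hereditarily minimal
-/

namespace Pool.Agent.Results.MP_00f11d_al.DenselyMinimal

/-- `G` is a minimal (Hausdorff) topological group: every Hausdorff group topology on `G` which is
coarser than the given one is equal to it (in Mathlib `t ≤ t'` says that `t'` is coarser). -/
def IsMinimal (G : Type) [AddCommGroup G] [t : TopologicalSpace G] : Prop :=
  T2Space G ∧ ∀ t' : TopologicalSpace G, @IsTopologicalAddGroup G t' _ → @T2Space G t' →
    t ≤ t' → t' = t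

/-- `G` is totally minimal: `G ⧸ N` is minimal for every closed subgroup `N`. -/
def IsTotallyMinimal (G : Type) [AddCommGroup G] [TopologicalSpace G] : Prop :=
  ∀ N : AddSubgroup G, IsClosed (N : Set G) → IsMinimal (G ⧸ N)

/-- Every subgroup of `G` is minimal. -/
def HereditarilyMinimal (G : Type) [AddCommGroup G] [TopologicalSpace G] : Prop :=
  ∀ S : AddSubgroup G, IsMinimal S

/-- Every dense subgroup of `G` is minimal. -/
def DenselyMinimal (G : Type) [AddCommGroup G] [TopologicalSpace G] : Prop :=
  ∀ S : AddSubgroup G, Dense (S : Set G) → IsMinimal S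

/-- Every dense subgroup of `G` is totally minimal. -/
def DenselyTotallyMinimal (G : Type) [AddCommGroup G] [TopologicalSpace G] : Prop :=
  ∀ S : AddSubgroup G, Dense (S : Set G) → IsTotallyMinimal S

/-- Let `G` be a Hausdorff abelian topological group. If `G` is densely minimal then `G` is
hereditarily minimal (Q1), and if `G` is densely totally minimal then `G` is hereditarily minimal
(Q2). -/
theorem result (G : Type) [AddCommGroup G] [TopologicalSpace G] [IsTopologicalAddGroup G]
    [T2Space G] :
    (DenselyMinimal G → HereditarilyMinimal G) ∧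
    (DenselyTotallyMinimal G → HereditarilyMinimal G) := by
  refine ⟨fun h => Pool.Agent.H519DM.q1_full h, fun h => ?_⟩
  have h' : Pool.Agent.H519DM.DTMinimal G := h
  exact Pool.Agent.H519DM.q1_full (h'.dm inferInstance)

end Pool.Agent.Results.MP_00f11d_al.DenselyMinimal
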